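import Mathlib

/-!
A counterexample for the dihedral group of order 18 as a section of a direct product.

`V` is the space of finitely supported sequences over `ZMod 3` indexed by the integers, `sh n` is
the shift by `n`, and `beta` is a bilinear form on `V` that changes sign under the shift by one.
-/

set_option autoImplicit false

namespace Pool.Agent.P.MP_be2783_al

/-- The sign `(-1)^n` as an integer. -/
def e (n : ℤ) : ℤ := (n.negOnePow : ℤ)

lemma e_add (m n : ℤ) : e (m + n) = e m * e n := by
  simp [e, Int.negOnePow_add]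

lemma e_zero : e 0 = 1 := by simp [e]

lemma e_cases (n : ℤ) : (Even n ∧ e n = 1) ∨ (¬ Even n ∧ e n = -1) := by
  rcases Int.even_or_odd n with h | h
  · left; exact ⟨h, by simp [e, Int.negOnePow_even n h]⟩
  · right; exact ⟨Int.not_even_iff_odd.mpr h, by simp [e, Int.negOnePow_odd n h]⟩

lemma e_mul_self (n : ℤ) : e n * e n = 1 := by
  rcases e_cases n with ⟨_, h⟩ | ⟨_, h⟩ <;> simp [h]

lemma e_neg (n : ℤ) : e (-n) = e n := by simp [e]

/-- A sparse increasing sequence that meets every residue class after a long gap. -/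
def s : ℕ → ℕ
  | 0 => 0
  | n + 1 => ((Nat.unpair n).1 + 1) * (s n + 2 * (Nat.unpair n).2 + 1) + (Nat.unpair n).2

lemma s_strictMono : StrictMono s := by
  apply strictMono_nat_of_lt_succ
  intro n
  simp only [s]
  nlinarith [Nat.zero_le ((Nat.unpair n).1 * (s n + 2 * (Nat.unpair n).2 + 1))]

open Classical in
/-- The indicator function of the range of `s`. -/
noncomputable def w (x : ℤ) : ZMod 3 := if ∃ j, (s j : ℤ) = x then 1 else 0

lemma w_neg {x : ℤ} (hx : x < 0) : w x = 0 := by
  unfold w
  rw [if_neg]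
  rintro ⟨j, hj⟩
  omega

lemma exists_gap (k : ℤ) (hk : k ≠ 0) (D : ℕ) :
    ∃ m : ℤ, (D : ℤ) < k * m ∧ w (k * m + D) = 1 ∧
      ∀ x : ℤ, k * m - D ≤ x → x < k * m + D → w x = 0 := by
  set n := Nat.pair (k.natAbs - 1) D with hn
  have hpos : 0 < k.natAbs := Int.natAbs_pos.mpr hk
  have hs : s (n + 1) = k.natAbs * (s n + 2 * D + 1) + D := by
    simp only [s, hn, Nat.unpair_pair]
    rw [Nat.sub_add_cancel hpos]
  have hkm : k * (k.sign * ((s n : ℤ) + 2 * D + 1)) = (k.natAbs : ℤ) * ((s n : ℤ) + 2 * D + 1) := by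
    rw [← mul_assoc, Int.mul_sign_self]
  have hge : (s n : ℤ) + 2 * D + 1 ≤ (k.natAbs : ℤ) * ((s n : ℤ) + 2 * D + 1) := by
    have h1 : (1 : ℤ) ≤ (k.natAbs : ℤ) := by exact_mod_cast hpos
    have h2 : (0 : ℤ) ≤ (s n : ℤ) + 2 * D + 1 := by positivity
    nlinarith
  have hs' : (s (n + 1) : ℤ) = (k.natAbs : ℤ) * ((s n : ℤ) + 2 * D + 1) + D := by
    rw [hs]; push_cast; ring
  refine ⟨k.sign * ((s n : ℤ) + 2 * D + 1), ?_, ?_, ?_⟩
  · rw [hkm]
    have : (0 : ℤ) ≤ (s n : ℤ) := by positivity
    have : (0 : ℤ) ≤ (D : ℤ) := by positivity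
    omega
  · rw [hkm]
    unfold w
    rw [if_pos ⟨n + 1, hs'⟩]
  · intro x h1 h2
    rw [hkm] at h1 h2
    unfold w
    rw [if_neg]
    rintro ⟨j, hj⟩
    have hlt : s j < s (n + 1) := by
      have : (s j : ℤ) < (s (n + 1) : ℤ) := by omega
      exact_mod_cast this
    have hjn : j ≤ n := Nat.lt_succ_iff.mp (s_strictMono.lt_iff_lt.mp hlt)
    have hle : s j ≤ s n := s_strictMono.monotone hjn
    have : (s j : ℤ) ≤ (s n : ℤ) := by exact_mod_cast hle
    have : (0 : ℤ) ≤ (D : ℤ) := by positivity
    omega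

/-- Finitely supported sequences over `ZMod 3`. -/
abbrev V : Type := ℤ →₀ ZMod 3

/-- The shift by `n`. -/
noncomputable def sh (n : ℤ) : V →ₗ[ZMod 3] V := Finsupp.lmapDomain (ZMod 3) (ZMod 3) (· + n)

lemma sh_single (n i : ℤ) (a : ZMod 3) : sh n (Finsupp.single i a) = Finsupp.single (i + n) a := by
  simp [sh, Finsupp.mapDomain_single]

lemma sh_zero (v : V) : sh 0 v = v := by
  induction v using Finsupp.induction_linear with
  | zero => simp
  | add f g hf hg => simp [hf, hg]
  | single i a => simp [sh_single]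

lemma sh_sh (m n : ℤ) (v : V) : sh m (sh n v) = sh (m + n) v := by
  induction v using Finsupp.induction_linear with
  | zero => simp
  | add f g hf hg => simp [hf, hg]
  | single i a => simp only [sh_single]; congr 1; ring

/-- The bilinear form with `beta (e_i) (e_j) = (-1)^i w (j - i)`. -/
noncomputable def beta : V →ₗ[ZMod 3] V →ₗ[ZMod 3] ZMod 3 :=
  Finsupp.linearCombination (ZMod 3) fun i : ℤ =>
    Finsupp.linearCombination (ZMod 3) fun j : ℤ => ((e i : ℤ) : ZMod 3) * w (j - i)

lemma beta_single (i j : ℤ) (a b : ZMod 3) :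
    beta (Finsupp.single i a) (Finsupp.single j b) = a * b * (((e i : ℤ) : ZMod 3) * w (j - i)) := by
  simp [beta, mul_assoc]

lemma beta_sh (n : ℤ) (u v : V) : beta (sh n u) (sh n v) = ((e n : ℤ) : ZMod 3) * beta u v := by
  induction u using Finsupp.induction_linear with
  | zero => simp
  | add f g hf hg => simp [hf, hg, mul_add]
  | single i a =>
    induction v using Finsupp.induction_linear with
    | zero => simp
    | add f g hf hg => simp only [map_add, hf, hg, mul_add]
    | single j b =>
      simp only [sh_single, beta_single, e_add]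
      have : j + n - (i + n) = j - i := by ring
      rw [this]
      push_cast
      ring

/-- Evaluation at `-1`. -/
noncomputable def ev : V →ₗ[ZMod 3] ZMod 3 :=
  Finsupp.linearCombination (ZMod 3) fun i : ℤ => ((e i : ℤ) : ZMod 3)

lemma ev_single (i : ℤ) (a : ZMod 3) : ev (Finsupp.single i a) = a * ((e i : ℤ) : ZMod 3) := by
  simp [ev]

lemma ev_sh (n : ℤ) (u : V) : ev (sh n u) = ((e n : ℤ) : ZMod 3) * ev u := by
  induction u using Finsupp.induction_linear with
  | zero => simp
  | add f g hf hg => simp [hf, hg, mul_add]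
  | single i a =>
    simp only [sh_single, ev_single, e_add]
    push_cast
    ring

lemma beta_sh_sh_sum (m n : ℤ) (v : V) :
    beta (sh m v) (sh n v) = ∑ i ∈ v.support, ∑ j ∈ v.support,
      v i * v j * (((e (i + m) : ℤ) : ZMod 3) * w (j + n - (i + m))) := by
  have hv : v = ∑ i ∈ v.support, Finsupp.single i (v i) := by
    conv_lhs => rw [← Finsupp.sum_single v]
    rfl
  have h1 : sh m v = ∑ i ∈ v.support, Finsupp.single (i + m) (v i) := by
    conv_lhs => rw [hv]
    simp only [map_sum, sh_single]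
  have h2 : sh n v = ∑ i ∈ v.support, Finsupp.single (i + n) (v i) := by
    conv_lhs => rw [hv]
    simp only [map_sum, sh_single]
  rw [h1, h2]
  simp only [map_sum, LinearMap.sum_apply, beta_single]
  rw [Finset.sum_comm]

/-- No nonzero subspace that is stable under a nontrivial shift is isotropic. -/
lemma exists_nonisotropic (v : V) (hv : v ≠ 0) (k : ℤ) (hk : k ≠ 0) :
    ∃ m : ℤ, beta v (sh (k * m) v) - beta (sh (k * m) v) v ≠ 0 := by
  have hne : v.support.Nonempty := Finsupp.support_nonempty_iff.mpr hv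
  set lo := v.support.min' hne with hlo
  set hi := v.support.max' hne with hhi
  have hlomem : lo ∈ v.support := Finset.min'_mem _ _
  have hhimem : hi ∈ v.support := Finset.max'_mem _ _
  have hb : ∀ i ∈ v.support, lo ≤ i ∧ i ≤ hi := fun i hi' =>
    ⟨Finset.min'_le _ _ hi', Finset.le_max' _ _ hi'⟩
  have hlh : lo ≤ hi := (hb lo hlomem).2
  obtain ⟨m, h1, h2, h3⟩ := exists_gap k hk (hi - lo).toNat
  have hD : (((hi - lo).toNat : ℕ) : ℤ) = hi - lo := Int.toNat_of_nonneg (by omega)
  rw [hD] at h1 h2 h3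
  refine ⟨m, ?_⟩
  set n := k * m with hn
  have hA : beta (sh n v) v = 0 := by
    have := beta_sh_sh_sum n 0 v
    rw [sh_zero] at this
    rw [this]
    apply Finset.sum_eq_zero
    intro i hi'
    apply Finset.sum_eq_zero
    intro j hj
    have := hb i hi'
    have := hb j hj
    rw [w_neg (by omega)]
    simp
  have hB : beta v (sh n v) = v lo * v hi * ((e lo : ℤ) : ZMod 3) := by
    have := beta_sh_sh_sum 0 n v
    rw [sh_zero] at this
    rw [this, Finset.sum_eq_single_of_mem lo hlomem, Finset.sum_eq_single_of_mem hi hhimem]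
    · have : hi + n - (lo + 0) = n + (hi - lo) := by ring
      rw [this, h2]
      simp
    · intro j hj hne'
      have := hb j hj
      rw [h3 _ (by omega) (by omega)]
      simp
    · intro i hi' hne'
      apply Finset.sum_eq_zero
      intro j hj
      have := hb i hi'
      have := hb j hj
      rw [h3 _ (by omega) (by omega)]
      simp
  rw [hA, hB, sub_zero]
  have hvl : v lo ≠ 0 := Finsupp.mem_support_iff.mp hlomem
  have hvh : v hi ≠ 0 := Finsupp.mem_support_iff.mp hhimem
  have he : ((e lo : ℤ) : ZMod 3) ≠ 0 := by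
    rcases e_cases lo with ⟨_, h⟩ | ⟨_, h⟩ <;> rw [h] <;> decide
  exact mul_ne_zero (mul_ne_zero hvl hvh) he

end Pool.Agent.P.MP_be2783_al
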