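import Mathlib
import Pool.Agent.P.MP_be2783_al.Basic

/-!
The ambient group `G`, its subgroups `GA` and `GB`, and the fibre product mapping onto the
dihedral group of order 18.
-/

set_option autoImplicit false

namespace Pool.Agent.P.MP_be2783_al

/-- The embedding of `ZMod 3` into `ZMod 9` as the multiples of three. -/
def tau (x : ZMod 3) : ZMod 9 := 3 * (x.val : ZMod 9)

/-- Reduction modulo three. -/
def rho (x : ZMod 9) : ZMod 3 := (x.val : ZMod 3)

lemma tau_add : ∀ x y : ZMod 3, tau (x + y) = tau x + tau y := by decide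
lemma tau_neg : ∀ x : ZMod 3, tau (-x) = -tau x := by decide
lemma tau_sub : ∀ x y : ZMod 3, tau (x - y) = tau x - tau y := by decide
lemma tau_zero : tau 0 = 0 := by decide
lemma tau_three : ∀ x : ZMod 3, 3 * tau x = 0 := by decide
lemma rho_add : ∀ x y : ZMod 9, rho (x + y) = rho x + rho y := by decide
lemma rho_neg : ∀ x : ZMod 9, rho (-x) = -rho x := by decide
lemma rho_zero : rho 0 = 0 := by decide
lemma rho_tau : ∀ x : ZMod 3, rho (tau x) = 0 := by decide
lemma three_mul_of_rho : ∀ x : ZMod 9, rho x = 0 → 3 * x = 0 := by decide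

lemma tau_e (n : ℤ) (x : ZMod 3) :
    tau (((e n : ℤ) : ZMod 3) * x) = ((e n : ℤ) : ZMod 9) * tau x := by
  rcases e_cases n with ⟨_, h⟩ | ⟨_, h⟩ <;> simp [h, tau_neg]

lemma rho_e (n : ℤ) (x : ZMod 9) :
    rho (((e n : ℤ) : ZMod 9) * x) = ((e n : ℤ) : ZMod 3) * rho x := by
  rcases e_cases n with ⟨_, h⟩ | ⟨_, h⟩ <;> simp [h, rho_neg]

lemma e_mul_self9 (n : ℤ) : ((e n : ℤ) : ZMod 9) * ((e n : ℤ) : ZMod 9) = 1 := by
  rw [← Int.cast_mul, e_mul_self]; simp

/-- The ambient group: triples with a twisted Heisenberg multiplication. -/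
@[ext] structure G : Type where
  u : V
  a : ZMod 9
  n : ℤ

noncomputable instance : Mul G :=
  ⟨fun x y => ⟨x.u + sh x.n y.u,
    x.a + ((e x.n : ℤ) : ZMod 9) * y.a + tau (beta x.u (sh x.n y.u)), x.n + y.n⟩⟩

noncomputable instance : One G := ⟨⟨0, 0, 0⟩⟩

noncomputable instance : Inv G :=
  ⟨fun x => ⟨-sh (-x.n) x.u, ((e x.n : ℤ) : ZMod 9) * (-x.a + tau (beta x.u x.u)), -x.n⟩⟩

@[simp] lemma mul_u (x y : G) : (x * y).u = x.u + sh x.n y.u := rfl
@[simp] lemma mul_a (x y : G) :
    (x * y).a = x.a + ((e x.n : ℤ) : ZMod 9) * y.a + tau (beta x.u (sh x.n y.u)) := rfl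
@[simp] lemma mul_n (x y : G) : (x * y).n = x.n + y.n := rfl
@[simp] lemma one_u : (1 : G).u = 0 := rfl
@[simp] lemma one_a : (1 : G).a = 0 := rfl
@[simp] lemma one_n : (1 : G).n = 0 := rfl
@[simp] lemma inv_u (x : G) : (x⁻¹).u = -sh (-x.n) x.u := rfl
@[simp] lemma inv_a (x : G) :
    (x⁻¹).a = ((e x.n : ℤ) : ZMod 9) * (-x.a + tau (beta x.u x.u)) := rfl
@[simp] lemma inv_n (x : G) : (x⁻¹).n = -x.n := rfl

noncomputable instance : Group G := Group.ofLeftAxioms
  (by
    intro x y z
    ext1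
    · simp only [mul_u, mul_n, map_add, sh_sh, add_assoc]
    · simp only [mul_u, mul_a, mul_n, map_add, sh_sh, LinearMap.add_apply, tau_add, e_add]
      rw [← sh_sh x.n y.n z.u, beta_sh, tau_e]
      push_cast
      ring
    · simp only [mul_n, add_assoc])
  (by
    intro x
    ext1
    · simp [sh_zero]
    · simp [e_zero, tau_zero]
    · simp)
  (by
    intro x
    ext1
    · simp
    · simp only [mul_a, inv_a, inv_u, inv_n, one_a, map_neg, LinearMap.neg_apply, tau_neg,
        beta_sh, tau_e, e_neg]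
      ring
    · simp)

/-- The projection onto the integers. -/
noncomputable def nHom : G →* Multiplicative ℤ where
  toFun x := Multiplicative.ofAdd x.n
  map_one' := rfl
  map_mul' _ _ := rfl

lemma zpow_n (x : G) (m : ℤ) : (x ^ m).n = x.n * m := by
  have h := map_zpow nHom x m
  have h2 : Multiplicative.toAdd (nHom (x ^ m)) = Multiplicative.toAdd (nHom x ^ m) := by rw [h]
  rw [toAdd_zpow] at h2
  have h3 : (x ^ m).n = m • x.n := h2
  rw [h3, smul_eq_mul, mul_comm]

lemma three_V (v : V) : v + v + v = 0 := by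
  ext i
  have : ∀ x : ZMod 3, x + x + x = 0 := by decide
  simp [this]

lemma cube (x : G) (hx : x.n = 0) : x ^ 3 = ⟨0, 3 * x.a, 0⟩ := by
  rw [pow_succ, pow_two]
  ext1
  · simp [hx, sh_zero, three_V]
  · simp only [mul_a, mul_u, mul_n, hx, sh_zero, add_zero, e_zero, map_add, LinearMap.add_apply,
      tau_add]
    have := tau_three (beta x.u x.u)
    push_cast
    linear_combination this
  · simp [hx]

lemma comm (x y : G) (hx : x.n = 0) (hy : y.n = 0) :
    x * y * x⁻¹ * y⁻¹ = ⟨0, tau (beta x.u y.u - beta y.u x.u), 0⟩ := by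
  have : x * y = (⟨0, tau (beta x.u y.u - beta y.u x.u), 0⟩ : G) * (y * x) := by
    ext1
    · simp [hx, hy, sh_zero, add_comm]
    · simp only [mul_a, mul_u, hx, hy, sh_zero, e_zero, tau_sub, map_zero,
        LinearMap.zero_apply, tau_zero]
      push_cast
      ring
    · simp [hx, hy]
  rw [this]
  group

lemma conj_u (g x : G) (hx : x.n = 0) : (g * x * g⁻¹).u = sh g.n x.u := by
  simp [hx, sh_sh, sh_zero]

/-- The first factor. -/
noncomputable def GA : Subgroup G where
  carrier := {g | rho g.a = ev g.u}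
  mul_mem' := by
    intro x y hx hy
    simp only [Set.mem_ofPred_eq] at hx hy ⊢
    simp [rho_add, rho_e, rho_tau, ev_sh, hx, hy]
  one_mem' := by simp [rho_zero]
  inv_mem' := by
    intro x hx
    simp only [Set.mem_ofPred_eq] at hx ⊢
    simp [rho_add, rho_e, rho_tau, rho_neg, ev_sh, hx, e_neg]

/-- The second factor. -/
noncomputable def GB : Subgroup G where
  carrier := {g | rho g.a = 0}
  mul_mem' := by
    intro x y hx hy
    simp only [Set.mem_ofPred_eq] at hx hy ⊢
    simp [rho_add, rho_e, rho_tau, hx, hy]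
  one_mem' := by simp [rho_zero]
  inv_mem' := by
    intro x hx
    simp only [Set.mem_ofPred_eq] at hx ⊢
    simp [rho_add, rho_e, rho_tau, rho_neg, hx]

/-- The fibre product. -/
noncomputable def GH : Subgroup (GA × GB) where
  carrier := {p | (p.1 : G).u = (p.2 : G).u ∧ (p.1 : G).n = (p.2 : G).n}
  mul_mem' := by
    rintro x y ⟨hx1, hx2⟩ ⟨hy1, hy2⟩
    simp [hx1, hx2, hy1, hy2]
  one_mem' := by simp
  inv_mem' := by
    rintro x ⟨hx1, hx2⟩
    simp [hx1, hx2]

open DihedralGroup in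
/-- The standard description of the dihedral group by a residue and a parity. -/
def dih (a : ZMod 9) (n : ℤ) : DihedralGroup 9 := if Even n then r a else sr (-a)

open DihedralGroup in
lemma dih_mul (a b : ZMod 9) (n m : ℤ) :
    dih (a + ((e n : ℤ) : ZMod 9) * b) (n + m) = dih a n * dih b m := by
  rcases e_cases n with ⟨hn, h⟩ | ⟨hn, h⟩ <;> by_cases hm : Even m <;>
    simp [dih, h, hn, hm, Int.even_add] <;> ring_nf

/-- The map from the fibre product onto the dihedral group. -/
noncomputable def fH : GH →* DihedralGroup 9 := MonoidHom.mk'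
  (fun p => dih ((p.1.1 : G).a - (p.1.2 : G).a) (p.1.1 : G).n)
  (by
    rintro ⟨⟨x1, x2⟩, hx1, hx2⟩ ⟨⟨y1, y2⟩, hy1, hy2⟩
    simp only at hx1 hx2 hy1 hy2
    rw [← dih_mul]
    simp only [Subgroup.coe_mul, Prod.mk_mul_mk, mul_a, mul_n, hx1, hx2, hy1, hy2]
    congr 1
    ring)

lemma fH_surjective : Function.Surjective fH := by
  intro d
  cases d with
  | r c =>
    refine ⟨⟨(⟨⟨Finsupp.single 0 (rho c), c, 0⟩, ?_⟩, ⟨⟨Finsupp.single 0 (rho c), 0, 0⟩, ?_⟩),
      ⟨rfl, rfl⟩⟩, ?_⟩
    · change rho c = ev (Finsupp.single 0 (rho c))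
      simp [ev_single, e_zero]
    · exact rho_zero
    · simp [fH, dih]
  | sr c =>
    refine ⟨⟨(⟨⟨Finsupp.single 0 (rho (-c)), -c, 1⟩, ?_⟩,
      ⟨⟨Finsupp.single 0 (rho (-c)), 0, 1⟩, ?_⟩), ⟨rfl, rfl⟩⟩, ?_⟩
    · change rho (-c) = ev (Finsupp.single 0 (rho (-c)))
      simp [ev_single, e_zero]
    · exact rho_zero
    · simp [fH, dih]

open DihedralGroup in
/-- In any group mapping onto the dihedral group and to `G` there are a lift `g` of a reflection
and a lift `x` of the rotation of order nine, the latter lying over `0`. -/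
lemma exists_lifts {U : Type} [Group U] (i : U →* G) (f : U →* DihedralGroup 9)
    (hf : Function.Surjective f) :
    ∃ g x : U, f g = sr 0 ∧ f x = r 1 ∧ (i x).n = 0 := by
  obtain ⟨g, hg⟩ := hf (sr 0)
  obtain ⟨h, hh⟩ := hf (r 5)
  refine ⟨g, h * g * h⁻¹ * g⁻¹, hg, ?_, ?_⟩
  · simp only [map_mul, map_inv, hg, hh]
    decide
  · simp

open DihedralGroup in
lemma no_section_B : ¬ ∃ H : Subgroup GB, ∃ f : H →* DihedralGroup 9, Function.Surjective f := by
  rintro ⟨H, f, hf⟩
  let i : H →* G := GB.subtype.comp H.subtype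
  have hi : Function.Injective i := GB.subtype_injective.comp H.subtype_injective
  obtain ⟨g, x, -, hx, hn⟩ := exists_lifts i f hf
  have hmem : rho (i x).a = 0 := x.1.2
  have h3 : x ^ 3 = 1 := by
    apply hi
    rw [map_pow, cube _ hn, three_mul_of_rho _ hmem, map_one]
    rfl
  have : f (x ^ 3) = 1 := by rw [h3, map_one]
  rw [map_pow, hx] at this
  revert this
  decide

open DihedralGroup in
lemma conj_r (m : ℤ) : (sr 0 : DihedralGroup 9) ^ m * r 1 * ((sr 0 : DihedralGroup 9) ^ m)⁻¹ = r 1 ∨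
    (sr 0 : DihedralGroup 9) ^ m * r 1 * ((sr 0 : DihedralGroup 9) ^ m)⁻¹ = r (-1) := by
  have : ∀ d : DihedralGroup 9, d * r 1 * d⁻¹ = r 1 ∨ d * r 1 * d⁻¹ = r (-1) := by decide
  exact this _

open DihedralGroup in
lemma no_section_A : ¬ ∃ H : Subgroup GA, ∃ f : H →* DihedralGroup 9, Function.Surjective f := by
  rintro ⟨H, f, hf⟩
  let i : H →* G := GA.subtype.comp H.subtype
  have hi : Function.Injective i := GA.subtype_injective.comp H.subtype_injective
  obtain ⟨g, x, hg, hx, hn⟩ := exists_lifts i f hf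
  have hmem : rho (i x).a = ev (i x).u := x.1.2
  have h3a : 3 * (i x).a ≠ 0 := by
    intro h0
    have h3 : x ^ 3 = 1 := by
      apply hi
      rw [map_pow, cube _ hn, h0, map_one]
      rfl
    have : f (x ^ 3) = 1 := by rw [h3, map_one]
    rw [map_pow, hx] at this
    revert this
    decide
  have hu : (i x).u ≠ 0 := by
    intro h0
    rw [h0, map_zero] at hmem
    exact h3a (three_mul_of_rho _ hmem)
  have hk : (i g).n ≠ 0 := by
    intro h0
    have h9 : (g ^ 3) ^ 3 = 1 := by
      apply hi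
      rw [map_pow, map_pow, cube _ h0, cube _ rfl, map_one]
      have : ∀ a : ZMod 9, 3 * (3 * a) = 0 := by decide
      simp only [this]
      rfl
    have : f ((g ^ 3) ^ 3) = 1 := by rw [h9, map_one]
    rw [map_pow, map_pow, hg] at this
    revert this
    decide
  obtain ⟨m, hm⟩ := exists_nonisotropic _ hu _ hk
  set y : H := g ^ m * x * (g ^ m)⁻¹ with hy
  have hyu : (i y).u = sh ((i g).n * m) (i x).u := by
    rw [hy, map_mul, map_mul, map_inv, conj_u _ _ hn, map_zpow, zpow_n]
  have hyn : (i y).n = 0 := by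
    rw [hy, map_mul, map_mul, map_inv]
    simp [hn]
  have hc : i (x * y * x⁻¹ * y⁻¹) = ⟨0, tau (beta (i x).u (sh ((i g).n * m) (i x).u) -
      beta (sh ((i g).n * m) (i x).u) (i x).u), 0⟩ := by
    rw [map_mul, map_mul, map_mul, map_inv, map_inv, comm _ _ hn hyn, hyu]
  have hf1 : f (x * y * x⁻¹ * y⁻¹) = 1 := by
    have hfy : f y = r 1 ∨ f y = r (-1) := by
      rw [hy, map_mul, map_mul, map_inv, map_zpow, hg, hx]
      exact conj_r m
    rw [map_mul, map_mul, map_mul, map_inv, map_inv, hx]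
    rcases hfy with h | h <;> rw [h] <;> decide
  have hcases : ∀ (c : ZMod 3) (a : ZMod 9), c ≠ 0 → 3 * a ≠ 0 →
      tau c = 3 * a ∨ tau c = 3 * a + 3 * a := by decide
  rcases hcases _ _ hm h3a with h | h
  · have : x * y * x⁻¹ * y⁻¹ = x ^ 3 := by
      apply hi
      rw [hc, h, map_pow, cube _ hn]
    rw [this, map_pow, hx] at hf1
    revert hf1
    decide
  · have : x * y * x⁻¹ * y⁻¹ = x ^ 3 * x ^ 3 := by
      apply hi
      rw [hc, h, map_mul, map_pow, cube _ hn]
      ext1
      · simp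
      · simp [e_zero, tau_zero]
      · simp
    rw [this, map_mul, map_pow, hx] at hf1
    revert hf1
    decide

end Pool.Agent.P.MP_be2783_al
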